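import Mathlib
import Pool.Agent.Lib.helper22.Ultra

set_option autoImplicit false

namespace Pool.Agent.Results.MP_5ff22d_lc.Counterexample

open Filter Pool.Agent.Lib.helper22.Ultra

/-- `v x = {S ⊆ ℕ : x ∈ *S}` for an element `x` of the ultrapower of ℕ by `W` -/
def v {I : Type} (W : Ultrafilter I) (x : Germ (W : Filter I) ℕ) : Set (Set ℕ) :=
  {S | Germ.LiftPred (fun n => n ∈ S) x}

/-- `F =~ G`: the two families contain the same divisibility-upward-closed sets -/
def EqTilde (F G : Set (Set ℕ)) : Prop :=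
  ∀ A : Set ℕ, {n | ∃ a ∈ A, a ∣ n} = A → (A ∈ F ↔ A ∈ G)

theorem result :
    ∃ (I : Type) (W : Ultrafilter I) (x y z : Germ (W : Filter I) ℕ),
      v W x = v W y ∧ ¬ EqTilde (v W (x * z)) (v W (y * z)) := by
  let F : Ultrafilter ℕ := (Ultrafilter.of (atTop : Filter ℕ)).map (Nat.nth Nat.Prime)
  have hp : ∀ᶠ p in (F : Filter ℕ), p.Prime := by
    change ∀ᶠ n in (Ultrafilter.of (atTop : Filter ℕ) : Filter ℕ), (Nat.nth Nat.Prime n).Prime
    exact Eventually.of_forall Nat.prime_nth_prime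
  have hl : ∀ a : ℕ, ∀ᶠ p in (F : Filter ℕ), a < p := by
    intro a
    refine Ultrafilter.of_le atTop ?_
    filter_upwards [eventually_gt_atTop a] with n hn
    exact lt_of_lt_of_le hn ((Nat.nth_strictMono Nat.infinite_setOfPred_prime).le_apply)
  refine ⟨ℕ × ℕ, tens F F, ((Prod.fst : ℕ × ℕ → ℕ) : Germ _ ℕ), ((Prod.snd : ℕ × ℕ → ℕ) : Germ _ ℕ),
    ((Prod.fst : ℕ × ℕ → ℕ) : Germ _ ℕ), ?_, ?_⟩
  · ext S
    simp only [v, Set.mem_ofPred_eq, Germ.liftPred_coe, eventually_tens, eventually_const]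
  · intro h
    have h1 := (h {n | ∃ p : ℕ, p.Prime ∧ p * p ∣ n} (by
      ext n
      constructor
      · rintro ⟨a, ⟨p, hp, h1⟩, h2⟩
        exact ⟨p, hp, h1.trans h2⟩
      · intro h
        exact ⟨n, h, dvd_rfl⟩)).1 (by
      simp only [v, Set.mem_ofPred_eq, ← Germ.coe_mul, Germ.liftPred_coe, eventually_tens]
      filter_upwards [hp] with p h
      exact Eventually.of_forall fun _ => ⟨p, h, dvd_rfl⟩)
    simp only [v, Set.mem_ofPred_eq, ← Germ.coe_mul, Germ.liftPred_coe, eventually_tens] at h1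
    obtain ⟨a, ha, h2⟩ := (hp.and h1).exists
    obtain ⟨b, hb, hab, p, hp', h3⟩ := (hp.and ((hl a).and h2)).exists
    have hsq : Squarefree (b * a) :=
      (Nat.squarefree_mul ((Nat.coprime_primes hb ha).2 hab.ne')).2
        ⟨hb.prime.squarefree, ha.prime.squarefree⟩
    exact hp'.prime.not_isUnit (hsq p h3)

end Pool.Agent.Results.MP_5ff22d_lc.Counterexample
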